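import Pool.Agent.H32.S36.Targets

set_option autoImplicit false

namespace Pool.Agent.H32.S36

/-- polynomial functions of degree at most `K` -/
def a23P : ℕ → (ℕ → ℤ) → Prop
  | 0, f => ∀ n, f (n + 1) = f n
  | (K + 1), f => a23P K (fun n => f (n + 1) - f n)

theorem a23_congr (K : ℕ) (f g : ℕ → ℤ) (h : ∀ n, f n = g n) (hf : a23P K f) : a23P K g := by
  have : f = g := funext h
  rwa [← this]

theorem a23_shift (K : ℕ) : ∀ f : ℕ → ℤ, a23P K f → a23P K (fun n => f (n + 1)) := by
  induction K with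
  | zero => intro f hf n; exact hf (n + 1)
  | succ K ih => intro f hf; exact ih _ hf

theorem a23_add (K : ℕ) : ∀ f g : ℕ → ℤ, a23P K f → a23P K g → a23P K (fun n => f n + g n) := by
  induction K with
  | zero => intro f g hf hg n; simp only [hf n, hg n]
  | succ K ih =>
    intro f g hf hg
    refine a23_congr K _ _ (fun n => ?_) (ih _ _ hf hg)
    ring

theorem a23_smul (K : ℕ) (c : ℤ) : ∀ f : ℕ → ℤ, a23P K f → a23P K (fun n => c * f n) := by
  induction K with
  | zero => intro f hf n; simp only [hf n]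
  | succ K ih =>
    intro f hf
    refine a23_congr K _ _ (fun n => ?_) (ih _ hf)
    ring

theorem a23_const (f : ℕ → ℤ) (hf : a23P 0 f) (n : ℕ) : f n = f 0 := by
  induction n with
  | zero => rfl
  | succ n ih => rw [hf n, ih]

theorem a23_mul (N : ℕ) : ∀ (K L : ℕ) (f g : ℕ → ℤ), K + L = N → a23P K f → a23P L g →
    a23P (K + L) (fun n => f n * g n) := by
  induction N with
  | zero =>
    intro K L f g h hf hg
    obtain ⟨rfl, rfl⟩ : K = 0 ∧ L = 0 := by omega
    intro n
    simp only [hf n, hg n]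
  | succ N ih =>
    intro K L f g h hf hg
    rcases K with _ | K
    · rw [zero_add]
      refine a23_congr L _ _ (fun n => ?_) (a23_smul L (f 0) g hg)
      rw [a23_const f hf n]
    · rcases L with _ | L
      · rw [add_zero]
        refine a23_congr (K + 1) _ _ (fun n => ?_) (a23_smul (K + 1) (g 0) f hf)
        rw [a23_const g hg n, mul_comm]
      · have h1 := ih (K + 1) L (fun n => f (n + 1)) (fun n => g (n + 1) - g n) (by omega)
          (a23_shift (K + 1) f hf) hg
        have h2 := ih K (L + 1) (fun n => f (n + 1) - f n) g (by omega) hf hg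
        have e1 : K + 1 + L = K + L + 1 := by omega
        have e2 : K + (L + 1) = K + L + 1 := by omega
        rw [e1] at h1
        rw [e2] at h2
        have e3 : K + 1 + (L + 1) = (K + L + 1) + 1 := by omega
        rw [e3]
        show a23P (K + L + 1) (fun n => f (n + 1) * g (n + 1) - f n * g n)
        refine a23_congr (K + L + 1) _ _ (fun n => ?_) (a23_add _ _ _ h1 h2)
        ring

theorem a23_choose (i : ℕ) : a23P i (fun n => ((n.choose i : ℕ) : ℤ)) := by
  induction i with
  | zero => intro n; simp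
  | succ i ih =>
    show a23P i (fun n => (((n + 1).choose (i + 1) : ℕ) : ℤ) - ((n.choose (i + 1) : ℕ) : ℤ))
    refine a23_congr i _ _ (fun n => ?_) ih
    rw [Nat.choose_succ_succ]
    push_cast
    ring

theorem a23_hockey (s m : ℕ) :
    ∑ n ∈ Finset.range m, ((n.choose s : ℕ) : ℤ) = ((m.choose (s + 1) : ℕ) : ℤ) := by
  induction m with
  | zero => simp
  | succ m ih =>
    rw [Finset.sum_range_succ, ih, Nat.choose_succ_succ]
    push_cast
    ring

theorem a23_tele (f : ℕ → ℤ) (n : ℕ) :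
    f n = f 0 + ∑ j ∈ Finset.range n, (f (j + 1) - f j) := by
  rw [Finset.sum_range_sub]
  ring

theorem a23_sum (K : ℕ) : ∀ f : ℕ → ℤ, a23P K f → ∃ a : ℕ → ℤ, ∀ m : ℕ,
    ∑ n ∈ Finset.range m, f n = ∑ s ∈ Finset.range (K + 1), a s * ((m.choose (s + 1) : ℕ) : ℤ) := by
  induction K with
  | zero =>
    intro f hf
    refine ⟨fun _ => f 0, fun m => ?_⟩
    rw [Finset.sum_congr rfl (fun n _ => a23_const f hf n)]
    simp [mul_comm]
  | succ K ih =>
    intro f hf
    obtain ⟨a, ha⟩ := ih _ hf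
    refine ⟨fun s => if s = 0 then f 0 else a (s - 1), fun m => ?_⟩
    rw [Finset.sum_range_succ']
    simp only [Nat.add_sub_cancel, Nat.succ_ne_zero, if_false, if_true, zero_add, Nat.choose_one_right]
    have h1 : ∀ n ∈ Finset.range m, f n =
        f 0 + ∑ s ∈ Finset.range (K + 1), a s * ((n.choose (s + 1) : ℕ) : ℤ) := by
      intro n _
      rw [← ha n]
      exact a23_tele f n
    rw [Finset.sum_congr rfl h1, Finset.sum_add_distrib, Finset.sum_comm]
    have h2 : ∀ s ∈ Finset.range (K + 1),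
        ∑ n ∈ Finset.range m, a s * ((n.choose (s + 1) : ℕ) : ℤ) =
          a s * ((m.choose (s + 1 + 1) : ℕ) : ℤ) := by
      intro s _
      rw [← Finset.mul_sum, a23_hockey]
    rw [Finset.sum_congr rfl h2]
    simp only [Finset.sum_const, Finset.card_range, nsmul_eq_mul]
    ring

theorem a23_dvd (q : ℕ) (hq : q = 2 ∨ q = 3) (m i e s : ℕ) (h : q ^ e ∣ m) (hs : s ≤ 4 * i) :
    q ^ e ∣ 36 ^ i * m.choose (s + 1) := by
  have hqp : q.Prime := by
    rcases hq with rfl | rfl
    · exact Nat.prime_two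
    · exact Nat.prime_three
  have hq2 : 2 ≤ q := hqp.two_le
  obtain ⟨v, D, hD, hv⟩ := Nat.exists_eq_pow_mul_and_not_dvd (n := s + 1) (by omega) q hqp.ne_one
  have hDpos : 0 < D := by
    rcases Nat.eq_zero_or_pos D with h0 | h0
    · exact absurd (h0 ▸ dvd_zero q) hD
    · exact h0
  have hvle : v ≤ 2 * i := by
    by_contra hc
    have h1 : 2 ^ (2 * i + 1) ≤ q ^ v := by
      calc 2 ^ (2 * i + 1) ≤ 2 ^ v := Nat.pow_le_pow_right (by norm_num) (by omega)
        _ ≤ q ^ v := Nat.pow_le_pow_left hq2 v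
    have h2 : q ^ v ≤ s + 1 := by rw [hv]; exact Nat.le_mul_of_pos_right _ hDpos
    have h3 : ∀ j : ℕ, 4 * j + 1 < 2 ^ (2 * j + 1) := by
      intro j
      induction j with
      | zero => norm_num
      | succ j ih =>
        have : 2 ^ (2 * (j + 1) + 1) = 4 * 2 ^ (2 * j + 1) := by ring
        omega
    have := h3 i
    omega
  have h36 : q ^ v ∣ 36 ^ i := by
    have h1 : q ^ (2 * i) ∣ 36 ^ i := by
      rw [pow_mul]
      refine pow_dvd_pow_of_dvd ?_ i
      rcases hq with rfl | rfl <;> norm_num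
    exact (pow_dvd_pow q hvle).trans h1
  obtain ⟨w, hw⟩ := h36
  have hcop : Nat.Coprime (q ^ e) D := Nat.Coprime.pow_left e ((Nat.Prime.coprime_iff_not_dvd hqp).2 hD)
  refine hcop.dvd_of_dvd_mul_right ?_
  have hkey : 36 ^ i * m.choose (s + 1) * D = w * ((s + 1) * m.choose (s + 1)) := by
    rw [hw, hv]
    ring
  rw [hkey]
  rcases m with _ | m
  · simp
  · have h2 : (s + 1) * (m + 1).choose (s + 1) = (m + 1) * m.choose s := by
      rw [mul_comm, ← Nat.add_one_mul_choose_eq]
    rw [h2]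
    exact Dvd.dvd.mul_left (Dvd.dvd.mul_right h _) _

theorem m_A23 : T_A23 := by
  intro q hq m i e h
  have hP : a23P (i + i + (i + i)) (fun n => (((n.choose i : ℕ) : ℤ) * ((n.choose i : ℕ) : ℤ)) *
      (((n.choose i : ℕ) : ℤ) * ((n.choose i : ℕ) : ℤ))) := by
    have h2 := a23_mul (i + i) i i _ _ rfl (a23_choose i) (a23_choose i)
    exact a23_mul (i + i + (i + i)) (i + i) (i + i) _ _ rfl h2 h2
  obtain ⟨a, ha⟩ := a23_sum _ _ hP
  have hcc : cc m i = ∑ s ∈ Finset.range (i + i + (i + i) + 1), a s * ((m.choose (s + 1) : ℕ) : ℤ) := by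
    rw [← ha m, cc]
    refine Finset.sum_congr rfl fun n _ => ?_
    ring
  rw [hcc, Finset.mul_sum]
  refine Finset.dvd_sum fun s hs => ?_
  have h1 := a23_dvd q hq m i e s h (by have := Finset.mem_range.1 hs; omega)
  have h2 : ((q ^ e : ℕ) : ℤ) ∣ ((36 ^ i * m.choose (s + 1) : ℕ) : ℤ) := by exact_mod_cast h1
  have h3 : (36 : ℤ) ^ i * (a s * ((m.choose (s + 1) : ℕ) : ℤ)) =
      a s * ((36 ^ i * m.choose (s + 1) : ℕ) : ℤ) := by
    push_cast
    ring
  rw [h3]
  exact Dvd.dvd.mul_left h2 _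

end Pool.Agent.H32.S36
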