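import Pool.Agent.H32.S36.Targets

set_option autoImplicit false

namespace Pool.Agent.H32.S36

open HahnSeries

section frb

variable {R : Type} [CommRing R]

theorem frb_mul_low (f g : LaurentSeries R) (a b : ℤ) (hf : ∀ n < a, f.coeff n = 0)
    (hg : ∀ n < b, g.coeff n = 0) : ∀ n < a + b, (f * g).coeff n = 0 := by
  intro n hn
  rw [HahnSeries.coeff_mul]
  refine Finset.sum_eq_zero fun ij hij => ?_
  have h : ij.1 + ij.2 = n := by
    simp only [HahnSeries.mem_support, Finset.mem_antidiagonal] at hij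
    exact hij.2.2
  by_cases h1 : ij.1 < a
  · rw [hf _ h1, zero_mul]
  · rw [hg _ (by omega), mul_zero]

theorem frb_pow_low (f : LaurentSeries R) (a : ℤ) (hf : ∀ n < a, f.coeff n = 0) (m : ℕ) :
    ∀ n < (m : ℤ) * a, (f ^ m).coeff n = 0 := by
  induction m with
  | zero =>
    intro n hn
    rw [pow_zero, HahnSeries.coeff_one, if_neg]
    intro h
    simp only [Nat.cast_zero, zero_mul] at hn
    omega
  | succ m ih =>
    intro n hn
    rw [pow_succ]
    refine frb_mul_low _ _ _ _ ih hf n ?_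
    push_cast at hn
    linarith

theorem frb_VV_single (d : ℕ) (hd : 0 < d) (k : ℤ) (c : R) :
    VV d hd (single k c) = single (d * k) c := by
  ext n
  rw [VV_coeff]
  have hd' : (d : ℤ) ≠ 0 := by exact_mod_cast hd.ne'
  by_cases h : n = d * k
  · subst h
    rw [if_pos (dvd_mul_right _ _), Int.mul_ediv_cancel_left _ hd', HahnSeries.coeff_single_same,
      HahnSeries.coeff_single_same]
  · rw [HahnSeries.coeff_single_of_ne h]
    split_ifs with h2
    · obtain ⟨m, rfl⟩ := h2
      rw [Int.mul_ediv_cancel_left _ hd', HahnSeries.coeff_single_of_ne]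
      intro h3
      exact h (by rw [h3])
    · rfl

end frb

theorem frb_single_pow (p : ℕ) [Fact p.Prime] (k : ℤ) (c : ZMod p) :
    (single k c : LaurentSeries (ZMod p)) ^ p = single (p * k) c := by
  rw [HahnSeries.single_pow, ZMod.pow_card, nsmul_eq_mul]

theorem frb_char (p : ℕ) (hp : p.Prime) [Fact p.Prime] (f : LaurentSeries (ZMod p)) :
    f ^ p = VV p hp.pos f := by
  have hch : CharP (LaurentSeries (ZMod p)) p := by
    have hinj : Function.Injective (HahnSeries.C : ZMod p →+* LaurentSeries (ZMod p)) :=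
      HahnSeries.C_injective
    exact (RingHom.charP_iff (HahnSeries.C : ZMod p →+* LaurentSeries (ZMod p)) hinj p).1
      inferInstance
  ext n
  obtain ⟨K, hK⟩ : ∃ K : ℤ, K = |n| := ⟨_, rfl⟩
  have hK0 : 0 ≤ K := hK ▸ abs_nonneg n
  have hnK : n ≤ K := hK ▸ le_abs_self n
  obtain ⟨g, hg⟩ : ∃ g : LaurentSeries (ZMod p),
      g = ∑ k ∈ Finset.Icc f.order K, single k (f.coeff k) := ⟨_, rfl⟩
  obtain ⟨r, hr⟩ : ∃ r : LaurentSeries (ZMod p), r = f - g := ⟨_, rfl⟩
  have hgc : ∀ m : ℤ, m ≤ K → g.coeff m = f.coeff m := by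
    intro m hm
    rw [hg, HahnSeries.coeff_sum]
    by_cases hmo : f.order ≤ m
    · rw [Finset.sum_eq_single m]
      · rw [HahnSeries.coeff_single_same]
      · intro b _ hb
        rw [HahnSeries.coeff_single_of_ne (Ne.symm hb)]
      · intro h
        exact absurd (Finset.mem_Icc.2 ⟨hmo, hm⟩) h
    · rw [Finset.sum_eq_zero]
      · by_contra hc
        exact hmo (HahnSeries.order_le_of_coeff_ne_zero (Ne.symm hc))
      · intro b hb
        have := (Finset.mem_Icc.1 hb).1
        rw [HahnSeries.coeff_single_of_ne (by omega)]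
  have hrc : ∀ m : ℤ, m < K + 1 → r.coeff m = 0 := by
    intro m hm
    rw [hr, HahnSeries.coeff_sub, hgc m (by omega), sub_self]
  have hf : f = g + r := by rw [hr]; ring
  have hgp : g ^ p = VV p hp.pos g := by
    rw [hg, map_sum, sum_pow_char]
    refine Finset.sum_congr rfl fun k _ => ?_
    rw [frb_single_pow, frb_VV_single]
  have hp1 : (1 : ℤ) ≤ p := by exact_mod_cast hp.one_lt.le
  have hlt : n < (p : ℤ) * (K + 1) := by nlinarith
  rw [hf, add_pow_char, map_add, HahnSeries.coeff_add, HahnSeries.coeff_add, hgp,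
    frb_pow_low r (K + 1) hrc p n hlt, VV_coeff p hp.pos r n]
  split_ifs with h
  · rw [hrc]
    exact Int.ediv_lt_of_lt_mul (by omega) (by linarith)
  · rfl

/-- reduction modulo `p` -/
noncomputable def frbRed (p : ℕ) (f : LaurentSeries ℤ) : LaurentSeries (ZMod p) :=
  f.map (Int.castRingHom (ZMod p))

theorem frbRed_coeff (p : ℕ) (f : LaurentSeries ℤ) (n : ℤ) :
    (frbRed p f).coeff n = (f.coeff n : ZMod p) := by
  simp [frbRed]

theorem frbRed_mul (p : ℕ) (f g : LaurentSeries ℤ) :
    frbRed p (f * g) = frbRed p f * frbRed p g := by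
  unfold frbRed
  exact HahnSeries.map_mul (Int.castRingHom (ZMod p) : ℤ →ₙ+* ZMod p)

theorem frbRed_pow (p : ℕ) (f : LaurentSeries ℤ) (m : ℕ) :
    frbRed p (f ^ m) = frbRed p f ^ m := by
  induction m with
  | zero =>
    ext n
    rw [pow_zero, pow_zero, frbRed_coeff, HahnSeries.coeff_one, HahnSeries.coeff_one]
    split_ifs <;> simp
  | succ m ih => rw [pow_succ, pow_succ, frbRed_mul, ih]

theorem m_FRB : T_FRB := by
  intro p hp f
  have : Fact p.Prime := ⟨hp⟩
  rw [DV, dvd_iff]
  intro n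
  rw [HahnSeries.coeff_sub]
  have h := congrArg (fun s => s.coeff n) (frb_char p hp (frbRed p f))
  rw [← frbRed_pow, frbRed_coeff, VV_coeff] at h
  rw [← ZMod.intCast_zmod_eq_zero_iff_dvd, Int.cast_sub, h, VV_coeff]
  split_ifs with h2
  · rw [frbRed_coeff, sub_self]
  · simp

end Pool.Agent.H32.S36
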