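import Pool.Agent.H32.S36.Targets

set_option autoImplicit false

namespace Pool.Agent.H32.S36

open Polynomial

section

variable {F : Type} [Field F]

/-- `LA` over a field -/
noncomputable def in4LA (P : F[X]) : F[X] :=
  (X * (X ^ 2 - 12 * X - 64) + X ^ 2 * (X - 6)) * derivative P +
    X ^ 2 * (X ^ 2 - 12 * X - 64) * derivative (derivative P)

/-- `LL` over a field -/
noncomputable def in4LL (P : F[X]) : F[X] :=
  X * (derivative (in4LA P) + (X - 2) ^ 2 * derivative P + (X - 2) * P)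

theorem in4_der (n : ℕ) (H : F[X]) :
    derivative ((X - C 36) ^ (n + 1) * H) =
      (X - C 36) ^ n * (C ((n : F) + 1) * H + (X - C 36) * derivative H) := by
  rw [derivative_mul, derivative_X_sub_C_pow]
  simp only [Nat.add_sub_cancel, Nat.cast_add, Nat.cast_one, map_add, map_one, map_natCast]
  ring

theorem in4_main (j : ℕ) (G : F[X]) (h6 : (36 : F) ≠ 0) (h8 : (800 : F) ≠ 0)
    (h1 : (j : F) + 1 ≠ 0) (h2 : (j : F) + 2 ≠ 0) (h3 : (j : F) + 3 ≠ 0) (hG : G.eval 36 ≠ 0)
    (hL : in4LL ((X - C 36) ^ (j + 3) * G) = 0) : False := by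
  obtain ⟨G1, hG1⟩ : ∃ G1 : F[X], G1 = C (((j + 2 : ℕ) : F) + 1) * G + (X - C 36) * derivative G :=
    ⟨_, rfl⟩
  obtain ⟨G2, hG2⟩ : ∃ G2 : F[X], G2 = C (((j + 1 : ℕ) : F) + 1) * G1 + (X - C 36) * derivative G1 :=
    ⟨_, rfl⟩
  obtain ⟨G3, hG3⟩ : ∃ G3 : F[X], G3 = C (((j : ℕ) : F) + 1) * G2 + (X - C 36) * derivative G2 :=
    ⟨_, rfl⟩
  have d1 : derivative ((X - C 36) ^ (j + 3) * G) = (X - C 36) ^ (j + 2) * G1 := by
    rw [in4_der (j + 2) G, hG1]
  have d2 : derivative ((X - C 36) ^ (j + 2) * G1) = (X - C 36) ^ (j + 1) * G2 := by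
    rw [in4_der (j + 1) G1, hG2]
  have d3 : derivative ((X - C 36) ^ (j + 1) * G2) = (X - C 36) ^ j * G3 := by
    rw [in4_der j G2, hG3]
  obtain ⟨A, hA⟩ : ∃ A : F[X], A = X * (X ^ 2 - 12 * X - 64) + X ^ 2 * (X - 6) := ⟨_, rfl⟩
  obtain ⟨B, hB⟩ : ∃ B : F[X], B = X ^ 2 * (X ^ 2 - 12 * X - 64) := ⟨_, rfl⟩
  have hfac : in4LL ((X - C 36) ^ (j + 3) * G) = (X - C 36) ^ j *
      (X * (derivative A * (X - C 36) ^ 2 * G1 + A * (X - C 36) * G2 +
        derivative B * (X - C 36) * G2 + B * G3 + (X - 2) ^ 2 * (X - C 36) ^ 2 * G1 +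
        (X - 2) * (X - C 36) ^ 3 * G)) := by
    have dA : derivative (A * ((X - C 36) ^ (j + 2) * G1)) =
        derivative A * ((X - C 36) ^ (j + 2) * G1) + A * ((X - C 36) ^ (j + 1) * G2) := by
      rw [derivative_mul, d2]
    have dB : derivative (B * ((X - C 36) ^ (j + 1) * G2)) =
        derivative B * ((X - C 36) ^ (j + 1) * G2) + B * ((X - C 36) ^ j * G3) := by
      rw [derivative_mul, d3]
    rw [in4LL, in4LA, d1, d2, ← hA, ← hB, derivative_add, dA, dB]
    ring
  rw [hfac] at hL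
  have hY : ((X : F[X]) - C 36) ^ j ≠ 0 := pow_ne_zero _ (X_sub_C_ne_zero 36)
  have h0 := (mul_eq_zero.1 hL).resolve_left hY
  have hev := congrArg (Polynomial.eval 36) h0
  have e3 : G3.eval 36 = ((j : F) + 1) * (((j : F) + 2) * (((j : F) + 3) * G.eval 36)) := by
    rw [hG3, hG2, hG1]
    simp only [eval_add, eval_mul, eval_C, eval_sub, eval_X, sub_self, zero_mul, add_zero]
    push_cast
    ring
  have eB : B.eval 36 = 36 ^ 2 * 800 := by
    rw [hB]
    simp only [eval_mul, eval_pow, eval_X, eval_sub, eval_ofNat]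
    norm_num
  simp only [eval_add, eval_mul, eval_C, eval_sub, eval_X, eval_pow, sub_self, zero_mul, mul_zero,
    add_zero, zero_add, eval_zero, ne_eq, OfNat.ofNat_ne_zero, not_false_eq_true, zero_pow, eB, e3]
    at hev
  have := mul_ne_zero h6 (mul_ne_zero (mul_ne_zero (pow_ne_zero 2 h6) h8)
    (mul_ne_zero h1 (mul_ne_zero h2 (mul_ne_zero h3 hG))))
  exact this hev

end

theorem in4_map (p : ℕ) [Fact p.Prime] (T : ℤ[X]) :
    (LL T).map (Int.castRingHom (ZMod p)) = in4LL (T.map (Int.castRingHom (ZMod p))) := by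
  simp only [LL, LA, q2, in4LL, in4LA, Polynomial.map_mul, Polynomial.map_add, Polynomial.map_sub,
    Polynomial.map_pow, Polynomial.map_X, ← derivative_map, Polynomial.map_ofNat]

theorem in4_mapA (p : ℕ) [Fact p.Prime] (T : ℤ[X]) :
    (LA T).map (Int.castRingHom (ZMod p)) = in4LA (T.map (Int.castRingHom (ZMod p))) := by
  simp only [LA, q2, in4LA, Polynomial.map_mul, Polynomial.map_add, Polynomial.map_sub,
    Polynomial.map_pow, Polynomial.map_X, ← derivative_map, Polynomial.map_ofNat]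

theorem in4_eval (p : ℕ) [Fact p.Prime] (T : ℤ[X]) (h : (p : ℤ) ∣ T.eval 36) :
    (T.map (Int.castRingHom (ZMod p))).eval 36 = 0 := by
  have h1 : (T.map (Int.castRingHom (ZMod p))).eval ((Int.castRingHom (ZMod p)) 36) =
      (Int.castRingHom (ZMod p)) (T.eval 36) := Polynomial.eval_map_apply _ _
  have h2 : ((Int.castRingHom (ZMod p)) 36) = (36 : ZMod p) := by simp
  rw [h2] at h1
  rw [h1]
  exact (ZMod.intCast_zmod_eq_zero_iff_dvd _ _).2 h

theorem m_IN4 : T_IN4 := by
  intro p hp h7 T hdeg hnz hLL he hth hLA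
  have : Fact p.Prime := ⟨hp⟩
  obtain ⟨Tb, hTb⟩ : ∃ Tb : (ZMod p)[X], Tb = T.map (Int.castRingHom (ZMod p)) := ⟨_, rfl⟩
  have hT0 : Tb ≠ 0 := by
    intro h
    apply hnz
    intro i
    have := congrArg (fun q => q.coeff i) h
    simp only [hTb, coeff_map, coeff_zero] at this
    exact (ZMod.intCast_zmod_eq_zero_iff_dvd _ _).1 this
  have hd : Tb.natDegree < p := by
    rw [hTb]
    exact lt_of_le_of_lt (natDegree_map_le) hdeg
  have hLLb : in4LL Tb = 0 := by
    rw [hTb, ← in4_map]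
    ext i
    rw [coeff_map, coeff_zero]
    exact (ZMod.intCast_zmod_eq_zero_iff_dvd _ _).2 (hLL i)
  have hcast : ∀ m : ℕ, 0 < m → (∀ q : ℕ, q.Prime → q ∣ m → q < 7) → (m : ZMod p) ≠ 0 := by
    intro m _ hq h
    have := (ZMod.natCast_eq_zero_iff m p).1 h
    have := hq p hp this
    omega
  have h36 : (36 : ZMod p) ≠ 0 := by
    have := hcast 36 (by norm_num) (by
      intro q hq hq2
      have h : q ∣ 6 ^ 2 := by norm_num; exact hq2
      have := Nat.le_of_dvd (by norm_num) (hq.dvd_of_dvd_pow h)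
      omega)
    exact_mod_cast this
  have h800 : (800 : ZMod p) ≠ 0 := by
    have := hcast 800 (by norm_num) (by
      intro q hq hq2
      have h : q ∣ 2 ^ 5 * 5 ^ 2 := by norm_num; exact hq2
      rcases (Nat.Prime.dvd_mul hq).1 h with h | h
      · have := Nat.le_of_dvd (by norm_num) (hq.dvd_of_dvd_pow h)
        omega
      · have := Nat.le_of_dvd (by norm_num) (hq.dvd_of_dvd_pow h)
        omega)
    exact_mod_cast this
  have e0 : Tb.eval 36 = 0 := by rw [hTb]; exact in4_eval p T he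
  have e1 : (derivative Tb).eval 36 = 0 := by
    have h := in4_eval p (thP T) hth
    rw [thP, Polynomial.map_mul, Polynomial.map_X, eval_mul, eval_X] at h
    have h' := (mul_eq_zero.1 h).resolve_left h36
    rw [hTb, derivative_map]
    exact h'
  have e2 : (derivative (derivative Tb)).eval 36 = 0 := by
    have h := in4_eval p (LA T) hLA
    rw [in4_mapA, ← hTb, in4LA, eval_add, eval_mul, e1, mul_zero, zero_add, eval_mul] at h
    have h' : (X ^ 2 * (X ^ 2 - 12 * X - 64) : (ZMod p)[X]).eval 36 = 36 ^ 2 * 800 := by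
      simp only [eval_mul, eval_pow, eval_X, eval_sub, eval_ofNat]
      norm_num
    rw [h'] at h
    exact (mul_eq_zero.1 h).resolve_left (mul_ne_zero (pow_ne_zero 2 h36) h800)
  obtain ⟨G, hG, hGn⟩ := exists_eq_pow_rootMultiplicity_mul_and_not_dvd Tb hT0 36
  obtain ⟨k, hk⟩ : ∃ k : ℕ, k = rootMultiplicity 36 Tb := ⟨_, rfl⟩
  rw [← hk] at hG
  have hGe : G.eval 36 ≠ 0 := fun h => hGn (dvd_iff_isRoot.2 h)
  have hkd : k ≤ Tb.natDegree := by
    rw [hk]
    have h := Polynomial.natDegree_le_of_dvd (pow_rootMultiplicity_dvd Tb 36) hT0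
    rwa [natDegree_pow, natDegree_X_sub_C, mul_one] at h
  -- the multiplicity is at least `3`
  have hk3 : 3 ≤ k := by
    by_contra hc
    have : k = 0 ∨ k = 1 ∨ k = 2 := by omega
    rcases this with rfl | rfl | rfl
    · rw [hG, pow_zero, one_mul] at e0
      exact hGe e0
    · rw [hG, in4_der 0 G] at e1
      simp only [pow_zero, one_mul, eval_add, eval_mul, eval_C, eval_sub, eval_X, sub_self, zero_mul,
        add_zero, Nat.cast_zero, zero_add] at e1
      exact hGe e1
    · rw [hG, in4_der 1 G, in4_der 0] at e2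
      simp only [pow_zero, one_mul, eval_add, eval_mul, eval_C, eval_sub, eval_X, sub_self, zero_mul,
        add_zero, Nat.cast_zero, zero_add, Nat.cast_one] at e2
      have h2 : (1 : ZMod p) + 1 ≠ 0 := by
        have := hcast 2 (by norm_num) (by
          intro q hq hq2
          have := Nat.le_of_dvd (by norm_num) hq2
          omega)
        push_cast at this
        rwa [one_add_one_eq_two]
      exact (mul_ne_zero h2 hGe) e2
  obtain ⟨j, rfl⟩ : ∃ j, k = j + 3 := ⟨k - 3, by omega⟩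
  have hjc : ∀ i : ℕ, i < 4 → 0 < i → ((j : ZMod p) + (i : ZMod p)) ≠ 0 := by
    intro i hi hi0 h
    have h' : ((j + i : ℕ) : ZMod p) = 0 := by push_cast; exact h
    have := Nat.le_of_dvd (by omega) ((ZMod.natCast_eq_zero_iff _ _).1 h')
    omega
  have q1 := hjc 1 (by norm_num) (by norm_num)
  have q2 := hjc 2 (by norm_num) (by norm_num)
  have q3 := hjc 3 (by norm_num) (by norm_num)
  push_cast at q1 q2 q3
  rw [hG] at hLLb
  exact in4_main j G h36 h800 q1 q2 q3 hGe hLLb

end Pool.Agent.H32.S36
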