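import Pool.Agent.H32.S36.Targets

set_option autoImplicit false

namespace Pool.Agent.H32.S36

open Finset

theorem lcs_sum {M : Type} [AddCommMonoid M] (p k : ℕ) (f : ℕ → M) :
    ∑ x ∈ range (p * k), f x = ∑ a ∈ range k, ∑ b ∈ range p, f (b + p * a) := by
  induction k with
  | zero => simp
  | succ k ih =>
    rw [Nat.mul_succ, Finset.sum_range_add, ih, Finset.sum_range_succ]
    congr 1
    exact Finset.sum_congr rfl fun b _ => by rw [add_comm]

theorem lcs_eval (p m : ℕ) : (((TT m).eval 36 : ℤ) : ZMod p) =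
    ∑ i ∈ range m, ∑ n ∈ range m, ((n.choose i : ℕ) : ZMod p) ^ 4 * 36 ^ i := by
  rw [TT, Polynomial.eval_finsetSum, Int.cast_sum]
  refine Finset.sum_congr rfl fun i _ => ?_
  rw [Polynomial.eval_mul, Polynomial.eval_C, Polynomial.eval_pow, Polynomial.eval_X, cc,
    Finset.sum_mul, Int.cast_sum]
  refine Finset.sum_congr rfl fun n _ => ?_
  push_cast
  ring

theorem lcs_lucas (p : ℕ) (hp : p.Prime) (a b c d : ℕ) (hb : b < p) (hd : d < p) :
    (((b + p * a).choose (d + p * c) : ℕ) : ZMod p) =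
      ((b.choose d : ℕ) : ZMod p) * ((a.choose c : ℕ) : ZMod p) := by
  have : Fact p.Prime := ⟨hp⟩
  have h := Choose.choose_modEq_choose_mod_mul_choose_div_nat (n := b + p * a) (k := d + p * c) (p := p)
  have h1 : (b + p * a) % p = b := by rw [Nat.add_mul_mod_self_left, Nat.mod_eq_of_lt hb]
  have h2 : (d + p * c) % p = d := by rw [Nat.add_mul_mod_self_left, Nat.mod_eq_of_lt hd]
  have h3 : (b + p * a) / p = a := by
    rw [Nat.add_mul_div_left _ _ hp.pos, Nat.div_eq_of_lt hb, zero_add]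
  have h4 : (d + p * c) / p = c := by
    rw [Nat.add_mul_div_left _ _ hp.pos, Nat.div_eq_of_lt hd, zero_add]
  rw [h1, h2, h3, h4] at h
  have h5 := (ZMod.natCast_eq_natCast_iff _ _ _).2 h
  rw [h5]
  push_cast
  rfl

theorem m_LCS : T_LCS := by
  intro p hp
  have : Fact p.Prime := ⟨hp⟩
  rw [← ZMod.intCast_zmod_eq_zero_iff_dvd] 
  rw [Int.cast_sub, Int.cast_pow, lcs_eval, lcs_eval, sub_eq_zero, pow_two p, lcs_sum, pow_two,
    Finset.sum_mul_sum]
  refine Finset.sum_congr rfl fun c _ => ?_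
  refine Finset.sum_congr rfl fun d hd => ?_
  rw [lcs_sum, Finset.sum_mul_sum]
  refine Finset.sum_congr rfl fun a _ => ?_
  refine Finset.sum_congr rfl fun b hb => ?_
  rw [lcs_lucas p hp a b c d (Finset.mem_range.1 hb) (Finset.mem_range.1 hd), pow_add, pow_mul,
    ZMod.pow_card]
  ring

end Pool.Agent.H32.S36
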