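import Pool.Agent.H42.S36.UNI
import Pool.Agent.H42.S36.FRB

set_option autoImplicit false

namespace Pool.Agent.H32.S36

open HahnSeries

theorem nu2_repr (f : LaurentSeries ℤ) (a : ℤ) (hf : ∀ n < a, f.coeff n = 0) :
    f = single a (1 : ℤ) *
      HahnSeries.ofPowerSeries ℤ ℤ (PowerSeries.mk (fun n : ℕ => f.coeff (a + n))) := by
  ext n
  rw [uni_shift, uni_coe_coeff]
  split_ifs with h
  · exact hf n (by omega)
  · rw [PowerSeries.coeff_mk]
    congr 1
    omega

theorem nu2_mul (f g : LaurentSeries ℤ) (a b : ℤ) (hf : ∀ n < a, f.coeff n = 0)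
    (hg : ∀ n < b, g.coeff n = 0) (k : ℕ) :
    (f * g).coeff (a + b + k) =
      ∑ i ∈ Finset.range (k + 1), f.coeff (a + i) * g.coeff (b + ((k - i : ℕ) : ℤ)) := by
  have h1 : f * g = single (a + b) (1 : ℤ) * HahnSeries.ofPowerSeries ℤ ℤ
      (PowerSeries.mk (fun n : ℕ => f.coeff (a + n)) *
        PowerSeries.mk (fun n : ℕ => g.coeff (b + n))) := by
    conv_lhs => rw [nu2_repr f a hf, nu2_repr g b hg]
    have e1 : single (a + b) (1 : ℤ) = single a (1 : ℤ) * single b (1 : ℤ) := by
      rw [HahnSeries.single_mul_single, mul_one]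
    rw [e1, map_mul]
    ring
  rw [h1, uni_shift, uni_coe_coeff, if_neg (by omega)]
  have e2 : (a + b + (k : ℤ) - (a + b)).natAbs = k := by omega
  rw [e2, PowerSeries.coeff_mul, Finset.Nat.sum_antidiagonal_eq_sum_range_succ
    (fun i j => PowerSeries.coeff i (PowerSeries.mk fun n : ℕ => f.coeff (a + n)) *
      PowerSeries.coeff j (PowerSeries.mk fun n : ℕ => g.coeff (b + n)))]
  simp only [PowerSeries.coeff_mk]

theorem m_NU2 : T_NU2 := by
  intro vz vi hv hi
  obtain ⟨vl, v0, v1, v2, v3, v4, v5, v6, v7⟩ := hv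
  obtain ⟨il, i1, i2, i3, i4, i5, i6, i7, i8⟩ := hi
  obtain ⟨G, hG⟩ : ∃ G : LaurentSeries ℤ, G = vz + 6 + 25 * vi := ⟨_, rfl⟩
  obtain ⟨F, hF⟩ : ∃ F : LaurentSeries ℤ, F = -(th vz * vi) := ⟨_, rfl⟩
  rw [← hG, ← hF]
  have e25 : ∀ n : ℤ, ((25 : LaurentSeries ℤ) * vi).coeff n = 25 * vi.coeff n := by
    intro n
    have := intCast_mul_coeff (R := ℤ) 25 vi n
    exact_mod_cast this
  have e6 : ∀ n : ℤ, (6 : LaurentSeries ℤ).coeff n = if n = 0 then 6 else 0 := by
    intro n
    have h := intCast_mul_coeff (R := ℤ) 6 (1 : LaurentSeries ℤ) n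
    rw [mul_one, HahnSeries.coeff_one] at h
    have h' : (6 : LaurentSeries ℤ).coeff n = 6 * (if n = 0 then 1 else 0) := by exact_mod_cast h
    rw [h']
    split_ifs <;> norm_num
  have hGc : ∀ n : ℤ, G.coeff n = vz.coeff n + (if n = 0 then 6 else 0) + 25 * vi.coeff n := by
    intro n
    rw [hG, HahnSeries.coeff_add, HahnSeries.coeff_add, e25, e6]
  have hGlow : ∀ n < (-1 : ℤ), G.coeff n = 0 := by
    intro n hn
    rw [hGc, vl n hn, il n (by omega), if_neg (by omega)]
    norm_num
  have G0 : G.coeff (-1) = 1 := by rw [hGc, v0, il _ (by norm_num)]; norm_num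
  have G1 : G.coeff 0 = 4 := by rw [hGc, v1, il _ (by norm_num)]; norm_num
  have G2 : G.coeff 1 = 22 := by rw [hGc, v2, i1]; norm_num
  have G3 : G.coeff 2 = 56 := by rw [hGc, v3, i2]; norm_num
  have G4 : G.coeff 3 = 177 := by rw [hGc, v4, i3]; norm_num
  have G5 : G.coeff 4 = 352 := by rw [hGc, v5, i4]; norm_num
  have G6 : G.coeff 5 = 870 := by rw [hGc, v6, i5]; norm_num
  have G7 : G.coeff 6 = 1584 := by rw [hGc, v7, i6]; norm_num
  have tl : ∀ n < (-1 : ℤ), (th vz).coeff n = 0 := by
    intro n hn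
    rw [th_coeff, vl n hn, mul_zero]
  have t0 : (th vz).coeff (-1) = -1 := by rw [th_coeff, v0]; norm_num
  have t1 : (th vz).coeff 0 = 0 := by rw [th_coeff, v1]; norm_num
  have t2 : (th vz).coeff 1 = -3 := by rw [th_coeff, v2]; norm_num
  have t3 : (th vz).coeff 2 = 12 := by rw [th_coeff, v3]; norm_num
  have t4 : (th vz).coeff 3 = 6 := by rw [th_coeff, v4]; norm_num
  have t5 : (th vz).coeff 4 = 8 := by rw [th_coeff, v5]; norm_num
  have t6 : (th vz).coeff 5 = -25 := by rw [th_coeff, v6]; norm_num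
  have t7 : (th vz).coeff 6 = -96 := by rw [th_coeff, v7]; norm_num
  have hFlow : ∀ n < (0 : ℤ), F.coeff n = 0 := by
    intro n hn
    rw [hF, HahnSeries.coeff_neg, frb_mul_low (th vz) vi (-1) 1 tl il n (by omega), neg_zero]
  have hFk : ∀ k : ℕ, F.coeff k =
      - ∑ i ∈ Finset.range (k + 1), (th vz).coeff (-1 + i) * vi.coeff (1 + ((k - i : ℕ) : ℤ)) := by
    intro k
    have h := nu2_mul (th vz) vi (-1) 1 tl il k
    have h' : (-1 + 1 + (k : ℤ)) = k := by ring
    rw [h'] at h
    rw [hF, HahnSeries.coeff_neg, h]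
  have F0 : F.coeff 0 = 1 := by
    have := hFk 0
    simp only [Finset.sum_range_succ, Finset.sum_range_zero] at this
    norm_num [v0, v1, v2, v3, v4, v5, v6, v7, i1] at this
    exact this
  have F1 : F.coeff 1 = 2 := by
    have := hFk 1
    simp only [Finset.sum_range_succ, Finset.sum_range_zero] at this
    norm_num [v0, v1, v2, v3, v4, v5, v6, v7, i1, i2] at this
    exact this
  have F2 : F.coeff 2 = 10 := by
    have := hFk 2
    simp only [Finset.sum_range_succ, Finset.sum_range_zero] at this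
    norm_num [v0, v1, v2, v3, v4, v5, v6, v7, i1, i2, i3] at this
    exact this
  have F3 : F.coeff 3 = 8 := by
    have := hFk 3
    simp only [Finset.sum_range_succ, Finset.sum_range_zero] at this
    norm_num [v0, v1, v2, v3, v4, v5, v6, v7, i1, i2, i3, i4] at this
    exact this
  have F4 : F.coeff 4 = 26 := by
    have := hFk 4
    simp only [Finset.sum_range_succ, Finset.sum_range_zero] at this
    norm_num [v0, v1, v2, v3, v4, v5, v6, v7, i1, i2, i3, i4, i5] at this
    exact this
  have F5 : F.coeff 5 = 2 := by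
    have := hFk 5
    simp only [Finset.sum_range_succ, Finset.sum_range_zero] at this
    norm_num [v0, v1, v2, v3, v4, v5, v6, v7, i1, i2, i3, i4, i5, i6] at this
    exact this
  have F6 : F.coeff 6 = 40 := by
    have := hFk 6
    simp only [Finset.sum_range_succ, Finset.sum_range_zero] at this
    norm_num [v0, v1, v2, v3, v4, v5, v6, v7, i1, i2, i3, i4, i5, i6, i7] at this
    exact this
  have F7 : F.coeff 7 = 16 := by
    have := hFk 7
    simp only [Finset.sum_range_succ, Finset.sum_range_zero] at this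
    norm_num [v0, v1, v2, v3, v4, v5, v6, v7, i1, i2, i3, i4, i5, i6, i7, i8] at this
    exact this
  refine ⟨⟨hGlow, G0, G1, G2, G3⟩, ⟨hFlow, F0, F1, F2, F3⟩, ?_⟩
  intro hz hh
  obtain ⟨F', hF1, hF2, _⟩ := m_UNI F 0 hFlow F0
  have hzG : hz = G * F' := by
    rw [← hh, mul_assoc, hF1, mul_one]
  have hzlow : ∀ n < (-1 : ℤ), hz.coeff n = 0 := by
    intro n hn
    rw [hzG]
    exact frb_mul_low G F' (-1) 0 hGlow (by simpa using hF2) n (by omega)
  have hk : ∀ k : ℕ, G.coeff (-1 + k) =
      ∑ i ∈ Finset.range (k + 1), hz.coeff (-1 + i) * F.coeff ((k - i : ℕ) : ℤ) := by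
    intro k
    have h := nu2_mul hz F (-1) 0 hzlow hFlow k
    rw [hh, add_zero] at h
    simp only [zero_add] at h
    exact h
  have z0 : hz.coeff (-1) = 1 := by
    have := hk 0
    simp only [Finset.sum_range_succ, Finset.sum_range_zero] at this
    norm_num [G0, F0] at this
    linarith
  have z1 : hz.coeff 0 = 2 := by
    have := hk 1
    simp only [Finset.sum_range_succ, Finset.sum_range_zero] at this
    norm_num [G1, F0, F1, z0] at this
    linarith
  have z2 : hz.coeff 1 = 8 := by
    have := hk 2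
    simp only [Finset.sum_range_succ, Finset.sum_range_zero] at this
    norm_num [G2, F0, F1, F2, z0, z1] at this
    linarith
  have z3 : hz.coeff 2 = 12 := by
    have := hk 3
    simp only [Finset.sum_range_succ, Finset.sum_range_zero] at this
    norm_num [G3, F0, F1, F2, F3, z0, z1, z2] at this
    linarith
  have z4 : hz.coeff 3 = 31 := by
    have := hk 4
    simp only [Finset.sum_range_succ, Finset.sum_range_zero] at this
    norm_num [G4, F0, F1, F2, F3, F4, z0, z1, z2, z3] at this
    linarith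
  have z5 : hz.coeff 4 = 52 := by
    have := hk 5
    simp only [Finset.sum_range_succ, Finset.sum_range_zero] at this
    norm_num [G5, F0, F1, F2, F3, F4, F5, z0, z1, z2, z3, z4] at this
    linarith
  have z6 : hz.coeff 5 = 108 := by
    have := hk 6
    simp only [Finset.sum_range_succ, Finset.sum_range_zero] at this
    norm_num [G6, F0, F1, F2, F3, F4, F5, F6, z0, z1, z2, z3, z4, z5] at this
    linarith
  have z7 : hz.coeff 6 = 176 := by
    have := hk 7
    simp only [Finset.sum_range_succ, Finset.sum_range_zero] at this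
    norm_num [G7, F0, F1, F2, F3, F4, F5, F6, F7, z0, z1, z2, z3, z4, z5, z6] at this
    linarith
  exact ⟨hzlow, z0, z1, z2, z3, z4, z5, z6, z7⟩

end Pool.Agent.H32.S36
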