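import Pool.Agent.H32.S36.Targets

set_option autoImplicit false

namespace Pool.Agent.H32.S36

open HahnSeries

theorem uni_coe_coeff (a : PowerSeries ℤ) (i : ℤ) :
    (HahnSeries.ofPowerSeries ℤ ℤ a).coeff i = if i < 0 then 0 else PowerSeries.coeff i.natAbs a :=
  PowerSeries.coeff_coe a i

theorem uni_shift (k : ℤ) (F : LaurentSeries ℤ) (n : ℤ) :
    ((single k (1 : ℤ)) * F).coeff n = F.coeff (n - k) := by
  have h := HahnSeries.coeff_single_mul_add (r := (1 : ℤ)) (x := F) (a := n - k) (b := k)
  rw [sub_add_cancel, one_mul] at h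
  exact h

theorem m_UNI : T_UNI := by
  intro f k hlow h1
  set a : PowerSeries ℤ := PowerSeries.mk (fun n : ℕ => f.coeff (k + n)) with ha
  have ha0 : PowerSeries.constantCoeff a = ((1 : ℤˣ) : ℤ) := by
    rw [← PowerSeries.coeff_zero_eq_constantCoeff_apply, ha, PowerSeries.coeff_mk]
    simpa using h1
  have hf : f = single k (1 : ℤ) * HahnSeries.ofPowerSeries ℤ ℤ a := by
    ext n
    rw [uni_shift, uni_coe_coeff]
    split_ifs with h
    · exact hlow n (by omega)
    · rw [ha, PowerSeries.coeff_mk]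
      congr 1
      omega
  set b : PowerSeries ℤ := PowerSeries.invOfUnit a 1 with hb
  have hab : a * b = 1 := PowerSeries.mul_invOfUnit a 1 ha0
  refine ⟨single (-k) (1 : ℤ) * HahnSeries.ofPowerSeries ℤ ℤ b, ?_, ?_, ?_⟩
  · rw [hf]
    calc single k (1 : ℤ) * HahnSeries.ofPowerSeries ℤ ℤ a *
          (single (-k) (1 : ℤ) * HahnSeries.ofPowerSeries ℤ ℤ b)
        = (single k (1 : ℤ) * single (-k) (1 : ℤ)) *
          (HahnSeries.ofPowerSeries ℤ ℤ a * HahnSeries.ofPowerSeries ℤ ℤ b) := by ring
      _ = 1 := by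
          have e1 : single k (1 : ℤ) * single (-k) (1 : ℤ) = (1 : LaurentSeries ℤ) := by
            rw [HahnSeries.single_mul_single, add_neg_cancel, mul_one]
            rfl
          have e2 : HahnSeries.ofPowerSeries ℤ ℤ a * HahnSeries.ofPowerSeries ℤ ℤ b
              = (1 : LaurentSeries ℤ) := by
            rw [← map_mul, hab, map_one]
          rw [e1, e2, mul_one]
  · intro n hn
    rw [uni_shift, uni_coe_coeff, if_pos (by omega)]
  · rw [uni_shift, uni_coe_coeff, if_neg (by omega), hb]
    have : (-k - -k).natAbs = 0 := by omega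
    rw [this, PowerSeries.coeff_zero_eq_constantCoeff_apply, PowerSeries.constantCoeff_invOfUnit]
    simp

end Pool.Agent.H32.S36
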